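import Pool.Agent.Lib.MP_d821cf_co.Count

/-!
# The upper bound for the number of Costas permutations
-/

set_option autoImplicit false

namespace Pool.MP_d821cf_co

open Finset Filter

theorem pow_mono_aux {B n : ℝ} {m : ℕ} (hm : 1 ≤ m) (hB : 3 ≤ B) (hn : (m : ℝ) + 1 ≤ n) :
    (B * n / m) ^ m ≤ (B * n / ((m + 1 : ℕ) : ℝ)) ^ (m + 1) := by
  have hm' : (0 : ℝ) < m := by exact_mod_cast hm
  have hn0 : 0 < n := by linarith
  have hB0 : 0 < B := by linarith
  have h1 : (1 + 1 / (m : ℝ)) ^ m ≤ 3 := by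
    have h2 : 1 + 1 / (m : ℝ) ≤ Real.exp (1 / m) := by
      have := Real.add_one_le_exp (1 / (m : ℝ))
      linarith
    calc (1 + 1 / (m : ℝ)) ^ m ≤ (Real.exp (1 / m)) ^ m :=
          pow_le_pow_left₀ (by positivity) h2 _
      _ = Real.exp 1 := by
          rw [← Real.exp_nat_mul]
          congr 1
          field_simp
      _ ≤ 3 := by linarith [Real.exp_one_lt_d9]
  push_cast
  have h3 : B * n / m = (B * n / (m + 1)) * (1 + 1 / (m : ℝ)) := by
    field_simp
  rw [h3, mul_pow, pow_succ]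
  refine mul_le_mul_of_nonneg_left (h1.trans ?_) (by positivity)
  rw [le_div_iff₀ (by positivity)]
  nlinarith

theorem N_bound {n : ℕ} {ε : ℝ} (hε : 0 < ε) (hε1 : ε ≤ 1) {s0 Q : ℕ} (hs0 : 1 ≤ s0)
    (hQ1 : (Q : ℝ) ≤ 4 * n * ε)
    (hQ2 : Real.log n ≤ ((s0 : ℝ) / 2) * ε / (4 * n * (1 + ε)) * Q) :
    ∀ j s : ℕ, 1 ≤ s → s ≤ n → s ≤ 2 ^ j * s0 →
      (N s n : ℝ) ≤ (16 * (1 + 2 * ε) * n / s) ^ s *
        ((((n : ℝ) ^ 2 + 1) ^ Q * n) ^ j * (n : ℝ) ^ s0) := by
  have hbase : ∀ s : ℕ, 1 ≤ s → s ≤ n → s ≤ s0 → (N s n : ℝ) ≤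
      (16 * (1 + 2 * ε) * n / s) ^ s * (n : ℝ) ^ s0 := by
    intro s hs1 hsn hs
    have hn1 : (1 : ℝ) ≤ n := by exact_mod_cast hs1.trans hsn
    have hs' : (0 : ℝ) < s := by exact_mod_cast hs1
    have hsn' : (s : ℝ) ≤ n := by exact_mod_cast hsn
    have h1 : (N s n : ℝ) ≤ (n : ℝ) ^ s := by exact_mod_cast N_triv s n
    have h2 : (n : ℝ) ^ s ≤ (n : ℝ) ^ s0 := pow_le_pow_right₀ hn1 hs
    have h3 : (1 : ℝ) ≤ (16 * (1 + 2 * ε) * n / s) ^ s := by
      refine one_le_pow₀ ?_
      rw [le_div_iff₀ hs']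
      nlinarith
    calc (N s n : ℝ) ≤ 1 * (n : ℝ) ^ s0 := by linarith
      _ ≤ _ := mul_le_mul_of_nonneg_right h3 (by positivity)
  intro j
  induction j with
  | zero =>
    intro s hs1 hsn hs
    rw [pow_zero, one_mul] at hs ⊢
    exact hbase s hs1 hsn hs
  | succ j ih =>
    intro s hs1 hsn hs
    have hn1 : (1 : ℝ) ≤ n := by exact_mod_cast hs1.trans hsn
    have hn0 : (0 : ℝ) < n := by linarith
    have hE1 : (1 : ℝ) ≤ ((n : ℝ) ^ 2 + 1) ^ Q * n := by
      have : (1 : ℝ) ≤ ((n : ℝ) ^ 2 + 1) ^ Q := one_le_pow₀ (by nlinarith)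
      nlinarith
    by_cases hss : s ≤ s0
    · refine (hbase s hs1 hsn hss).trans (mul_le_mul_of_nonneg_left ?_ (by positivity))
      have : (1 : ℝ) ≤ (((n : ℝ) ^ 2 + 1) ^ Q * n) ^ (j + 1) := one_le_pow₀ hE1
      have h0 : (0 : ℝ) ≤ (n : ℝ) ^ s0 := by positivity
      nlinarith
    · have hss' : s0 < s := not_le.1 hss
      set a := s / 2 with ha
      have ha1 : 1 ≤ a := by omega
      have han : a ≤ n := by omega
      have haj : a ≤ 2 ^ j * s0 := by
        have : 2 ^ (j + 1) * s0 = 2 * (2 ^ j * s0) := by ring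
        rw [this] at hs
        omega
      have ha0 : (0 : ℝ) < a := by exact_mod_cast ha1
      have han' : (a : ℝ) ≤ n := by exact_mod_cast han
      have hsa : (s0 : ℝ) / 2 ≤ a := by
        have : s0 ≤ 2 * a := by omega
        have : (s0 : ℝ) ≤ 2 * a := by exact_mod_cast this
        linarith
      -- the number of steps
      have hβ : Real.log n ≤ a * ε / (4 * n * (1 + ε)) * Q := by
        refine hQ2.trans (mul_le_mul_of_nonneg_right ?_ (Nat.cast_nonneg _))
        exact div_le_div_of_nonneg_right (mul_le_mul_of_nonneg_right hsa hε.le) (by positivity)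
      have hq : (1 - a * ε / (4 * n * (1 + ε))) ^ Q * ((a : ℝ) * n) < 4 * n * (1 + ε) := by
        set β : ℝ := a * ε / (4 * n * (1 + ε)) with hβd
        have hβ1 : β ≤ 1 := by
          rw [hβd, div_le_one (by positivity)]
          nlinarith
        have h1 : (1 - β) ^ Q ≤ 1 / n := by
          have h2 : 1 - β ≤ Real.exp (-β) := by
            have := Real.add_one_le_exp (-β)
            linarith
          calc (1 - β) ^ Q ≤ (Real.exp (-β)) ^ Q :=
                pow_le_pow_left₀ (by linarith) h2 _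
            _ = Real.exp (-(β * Q)) := by
                rw [← Real.exp_nat_mul]
                congr 1
                ring
            _ ≤ Real.exp (-Real.log n) := Real.exp_le_exp.2 (by linarith)
            _ = 1 / n := by
                rw [Real.exp_neg, Real.exp_log hn0, one_div]
        calc (1 - β) ^ Q * ((a : ℝ) * n) ≤ 1 / n * (a * n) :=
              mul_le_mul_of_nonneg_right h1 (by positivity)
          _ = a := by field_simp
          _ < 4 * n * (1 + ε) := by nlinarith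
      have hd := N_double (q := Q) ha1 han hε hε1 hq
      have hIH := ih a ha1 han haj
      -- collect
      have h3 : ((a : ℝ) * n + 1) ^ Q ≤ ((n : ℝ) ^ 2 + 1) ^ Q :=
        pow_le_pow_left₀ (by positivity) (by nlinarith) _
      have h4 : ((4 * n * (1 + ε) + Q) / a : ℝ) ^ a ≤ (4 * (1 + 2 * ε) * n / a) ^ a := by
        refine pow_le_pow_left₀ (by positivity) ?_ _
        exact div_le_div_of_nonneg_right (by nlinarith) ha0.le
      have h5 : (N (a + a) n : ℝ) ≤ (16 * (1 + 2 * ε) * n / ((a + a : ℕ) : ℝ)) ^ (a + a) *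
          ((((n : ℝ) ^ 2 + 1) ^ Q * n) ^ j * (n : ℝ) ^ s0) * ((n : ℝ) ^ 2 + 1) ^ Q := by
        refine hd.trans ?_
        calc (N a n : ℝ) * ((a * n + 1 : ℝ) ^ Q * ((4 * n * (1 + ε) + Q) / a) ^ a)
            ≤ ((16 * (1 + 2 * ε) * n / a) ^ a *
              ((((n : ℝ) ^ 2 + 1) ^ Q * n) ^ j * (n : ℝ) ^ s0)) *
              (((n : ℝ) ^ 2 + 1) ^ Q * (4 * (1 + 2 * ε) * n / a) ^ a) := by
              refine mul_le_mul hIH (mul_le_mul h3 h4 (by positivity) (by positivity))
                (by positivity) (by positivity)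
          _ = ((16 * (1 + 2 * ε) * n / a) ^ a * (4 * (1 + 2 * ε) * n / a) ^ a) *
              ((((n : ℝ) ^ 2 + 1) ^ Q * n) ^ j * (n : ℝ) ^ s0) * ((n : ℝ) ^ 2 + 1) ^ Q := by
              ring
          _ = _ := by
              congr 2
              rw [← mul_pow, ← two_mul, pow_mul]
              congr 1
              push_cast
              field_simp
              ring
      have h6 : (N s n : ℝ) ≤ n * ((16 * (1 + 2 * ε) * n / s) ^ s *
          ((((n : ℝ) ^ 2 + 1) ^ Q * n) ^ j * (n : ℝ) ^ s0) * ((n : ℝ) ^ 2 + 1) ^ Q) := by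
        rcases Nat.even_or_odd' s with ⟨c, hc | hc⟩
        · have hca : s = a + a := by omega
          rw [hca]
          refine h5.trans ?_
          have h0 : (0 : ℝ) ≤ (16 * (1 + 2 * ε) * n / ((a + a : ℕ) : ℝ)) ^ (a + a) *
            ((((n : ℝ) ^ 2 + 1) ^ Q * n) ^ j * (n : ℝ) ^ s0) * ((n : ℝ) ^ 2 + 1) ^ Q := by
            positivity
          nlinarith
        · have hca : s = (a + a) + 1 := by omega
          rw [hca]
          have h7 : (N (a + a + 1) n : ℝ) ≤ n * N (a + a) n := by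
            exact_mod_cast N_succ (a + a) n
          refine h7.trans (mul_le_mul_of_nonneg_left ?_ hn0.le)
          refine h5.trans ?_
          refine mul_le_mul_of_nonneg_right (mul_le_mul_of_nonneg_right ?_ (by positivity))
            (by positivity)
          refine pow_mono_aux (by omega) (by nlinarith) ?_
          have : a + a + 1 ≤ n := by omega
          exact_mod_cast this
      refine h6.trans (le_of_eq ?_)
      ring

/-- The number of Costas permutations is at most `(16 + o(1)) ^ n`. -/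
theorem C_le_pow {K : ℝ} (hK : 16 < K) : ∀ᶠ n : ℕ in atTop, (C n : ℝ) ≤ K ^ n := by
  set t : ℝ := Real.log (K / 16) with ht
  have ht0 : 0 < t := Real.log_pos (by linarith)
  set ε : ℝ := min 1 (t / 4) with hεd
  have hε : 0 < ε := lt_min one_pos (by linarith)
  have hε1 : ε ≤ 1 := min_le_left _ _
  have hεt : ε ≤ t / 4 := min_le_right _ _
  -- the growth of the logarithm
  have hL : ∀ᶠ n : ℕ in atTop, Real.log n ≤ (n : ℝ) ^ (1 / 12 : ℝ) := by
    have h1 := (isLittleO_log_rpow_atTop (r := 1 / 12) (by norm_num)).bound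
      (c := 1) one_pos
    have h2 := tendsto_natCast_atTop_atTop (R := ℝ) |>.eventually h1
    filter_upwards [h2, eventually_ge_atTop 1] with n hn hn1
    have hn1' : (1 : ℝ) ≤ n := by exact_mod_cast hn1
    rw [Real.norm_of_nonneg (Real.log_nonneg hn1'), Real.norm_of_nonneg (by positivity),
      one_mul] at hn
    exact hn
  have hbig : ∀ M : ℝ, ∀ᶠ n : ℕ in atTop, M ≤ (n : ℝ) ^ (1 / 12 : ℝ) := by
    intro M
    have h1 := tendsto_rpow_atTop (y := 1 / 12) (by norm_num)
    exact (h1.comp (tendsto_natCast_atTop_atTop (R := ℝ))).eventually (eventually_ge_atTop M)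
  filter_upwards [hL, hbig (100 * (1 + ε) / ε), hbig (1000 * (1 + ε) / (ε * t)), hbig 3,
    eventually_ge_atTop 3] with n hn1 hn2 hn3 hn4 hn5
  set x : ℝ := (n : ℝ) ^ (1 / 12 : ℝ) with hx
  have hn0 : (0 : ℝ) < n := by
    have : 0 < n := by omega
    exact_mod_cast this
  have hx0 : 0 < x := by linarith
  have hx12 : x ^ 12 = n := by
    rw [hx, ← Real.rpow_natCast, ← Real.rpow_mul hn0.le]
    norm_num
  have hL0 : 0 ≤ Real.log n := Real.log_nonneg (by
    have : (1 : ℝ) ≤ n := by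
      have : 1 ≤ n := by omega
      exact_mod_cast this
    exact this)
  -- the parameters
  set s0 : ℕ := ⌈x ^ 6⌉₊ with hs0
  have hs0a : x ^ 6 ≤ s0 := Nat.le_ceil _
  have hs0b : (s0 : ℝ) ≤ x ^ 6 + 1 := (Nat.ceil_lt_add_one (by positivity)).le
  have hx6 : (1 : ℝ) ≤ x ^ 6 := one_le_pow₀ (by linarith)
  have hs01 : 1 ≤ s0 := by
    have : (1 : ℝ) ≤ s0 := hx6.trans hs0a
    exact_mod_cast this
  set Q : ℕ := ⌈8 * (1 + ε) / ε * x ^ 7⌉₊ with hQ
  have hQa : 8 * (1 + ε) / ε * x ^ 7 ≤ Q := Nat.le_ceil _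
  have hQb : (Q : ℝ) ≤ 8 * (1 + ε) / ε * x ^ 7 + 1 := (Nat.ceil_lt_add_one (by positivity)).le
  have hx1 : 1 ≤ x := by linarith
  have he1 : 1 ≤ (1 + ε) / ε := by
    rw [le_div_iff₀ hε]
    linarith
  have hQc : (Q : ℝ) ≤ 9 * ((1 + ε) / ε) * x ^ 7 := by
    refine hQb.trans ?_
    have : (1 : ℝ) ≤ x ^ 7 := one_le_pow₀ hx1
    have h2 : 8 * (1 + ε) / ε * x ^ 7 = 8 * ((1 + ε) / ε) * x ^ 7 := by ring
    rw [h2]
    nlinarith
  have hQ1 : (Q : ℝ) ≤ 4 * n * ε := by
    refine hQc.trans ?_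
    rw [← hx12]
    have h3 : 100 * (1 + ε) ≤ x * ε := by
      rwa [div_le_iff₀ hε] at hn2
    have h4 : 9 * ((1 + ε) / ε) * x ^ 7 = (9 * (1 + ε)) * x ^ 7 / ε := by ring
    rw [h4, div_le_iff₀ hε]
    have h5 : x ^ 7 ≤ x ^ 10 := pow_le_pow_right₀ hx1 (by norm_num)
    have h6 : 0 ≤ x ^ 7 := by positivity
    have h7 : 1 ≤ x * ε := by nlinarith
    calc 9 * (1 + ε) * x ^ 7 ≤ (x * ε) * x ^ 7 := by
          refine mul_le_mul_of_nonneg_right ?_ h6
          linarith
      _ ≤ (x * ε) * x ^ 10 := mul_le_mul_of_nonneg_left h5 (by positivity)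
      _ ≤ (x * ε) * x ^ 10 * (x * ε) := by
          have : 0 ≤ (x * ε) * x ^ 10 := by positivity
          nlinarith
      _ = x ^ 12 * ε * ε := by ring
      _ ≤ 4 * x ^ 12 * ε * ε := by
          have : 0 ≤ x ^ 12 * ε * ε := by positivity
          nlinarith
  have hQ2 : Real.log n ≤ ((s0 : ℝ) / 2) * ε / (4 * n * (1 + ε)) * Q := by
    have h1 : x ≤ (x ^ 6 / 2) * ε / (4 * n * (1 + ε)) * (8 * (1 + ε) / ε * x ^ 7) := by
      rw [← hx12]
      have : (x ^ 6 / 2) * ε / (4 * x ^ 12 * (1 + ε)) * (8 * (1 + ε) / ε * x ^ 7) = x := by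
        field_simp
        ring
      rw [this]
    refine hn1.trans (h1.trans ?_)
    refine mul_le_mul ?_ hQa (by positivity) (by positivity)
    refine div_le_div_of_nonneg_right (mul_le_mul_of_nonneg_right ?_ hε.le) (by positivity)
    linarith
  -- the number of doublings
  set J : ℕ := Nat.clog 2 n with hJ
  have hJ1 : n ≤ 2 ^ J * s0 := by
    have h1 : n ≤ 2 ^ J := Nat.le_pow_clog (by norm_num) n
    nlinarith
  have hJ2 : (J : ℝ) ≤ 3 * x := by
    have h1 : 2 ^ (J - 1) < n := Nat.pow_pred_clog_lt_self (by norm_num) (by omega)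
    have hJpos : 1 ≤ J := by
      by_contra h
      have : J = 0 := by omega
      rw [this] at hJ1
      have h2 : n ≤ 2 ^ Nat.clog 2 n := Nat.le_pow_clog (by norm_num) n
      rw [← hJ, this] at h2
      omega
    have h2 : (2 : ℝ) ^ (J - 1) < n := by exact_mod_cast h1
    have h3 : ((J - 1 : ℕ) : ℝ) * Real.log 2 ≤ Real.log n := by
      rw [← Real.log_pow]
      exact Real.log_le_log (by positivity) h2.le
    have h4 : ((J - 1 : ℕ) : ℝ) = (J : ℝ) - 1 := by
      rw [Nat.cast_sub hJpos, Nat.cast_one]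
    rw [h4] at h3
    have h5 : (1 / 2 : ℝ) ≤ Real.log 2 := by linarith [Real.log_two_gt_d9]
    have h6 : (0 : ℝ) ≤ (J : ℝ) - 1 := by
      have : (1 : ℝ) ≤ J := by exact_mod_cast hJpos
      linarith
    nlinarith
  have hmain := N_bound hε hε1 hs01 hQ1 hQ2 J n (by omega) le_rfl hJ1
  have h1 : (C n : ℝ) ≤ N n n := by exact_mod_cast C_le_N n
  refine h1.trans (hmain.trans ?_)
  have h2 : 16 * (1 + 2 * ε) * (n : ℝ) / n = 16 * (1 + 2 * ε) := by field_simp
  rw [h2]
  -- logarithms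
  have h3 : ((((n : ℝ) ^ 2 + 1) ^ Q * n) ^ J * (n : ℝ) ^ s0) ≤ Real.exp (t / 2 * n) := by
    have hpos : 0 < ((((n : ℝ) ^ 2 + 1) ^ Q * n) ^ J * (n : ℝ) ^ s0) := by positivity
    rw [← Real.log_le_iff_le_exp hpos, Real.log_mul (by positivity) (by positivity),
      Real.log_pow, Real.log_mul (by positivity) (by positivity), Real.log_pow, Real.log_pow]
    have h4 : Real.log ((n : ℝ) ^ 2 + 1) ≤ 3 * x := by
      have hn3' : (3 : ℝ) ≤ n := by exact_mod_cast hn5
      have h5 : (n : ℝ) ^ 2 + 1 ≤ (n : ℝ) ^ 3 := by nlinarith [sq_nonneg ((n : ℝ) - 1)]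
      calc Real.log ((n : ℝ) ^ 2 + 1) ≤ Real.log ((n : ℝ) ^ 3) :=
            Real.log_le_log (by positivity) h5
        _ = 3 * Real.log n := by
            rw [Real.log_pow]
            norm_num
        _ ≤ 3 * x := by linarith
    have hc1 : 1 ≤ 9 * ((1 + ε) / ε) * x ^ 7 := by
      have : (1 : ℝ) ≤ x ^ 7 := one_le_pow₀ hx1
      nlinarith
    have h6 : (Q : ℝ) * Real.log ((n : ℝ) ^ 2 + 1) + Real.log n ≤
        36 * ((1 + ε) / ε) * x ^ 8 := by
      have h7 : (Q : ℝ) * Real.log ((n : ℝ) ^ 2 + 1) ≤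
          (9 * ((1 + ε) / ε) * x ^ 7) * (3 * x) := by
        refine mul_le_mul hQc h4 (Real.log_nonneg ?_) (by positivity)
        have : (0 : ℝ) ≤ (n : ℝ) ^ 2 := by positivity
        linarith
      have h8 : Real.log n ≤ (9 * ((1 + ε) / ε) * x ^ 7) * x := by nlinarith
      calc (Q : ℝ) * Real.log ((n : ℝ) ^ 2 + 1) + Real.log n
          ≤ (9 * ((1 + ε) / ε) * x ^ 7) * (3 * x) + (9 * ((1 + ε) / ε) * x ^ 7) * x :=
            add_le_add h7 h8
        _ = _ := by ring
    have h9 : (J : ℝ) * ((Q : ℝ) * Real.log ((n : ℝ) ^ 2 + 1) + Real.log n) ≤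
        (3 * x) * (36 * ((1 + ε) / ε) * x ^ 8) := by
      refine mul_le_mul hJ2 h6 ?_ (by positivity)
      have : 0 ≤ Real.log ((n : ℝ) ^ 2 + 1) := Real.log_nonneg (by
        have : (0 : ℝ) ≤ (n : ℝ) ^ 2 := by positivity
        linarith)
      positivity
    have h10 : (s0 : ℝ) * Real.log n ≤ (2 * x ^ 6) * x := by
      refine mul_le_mul (by linarith) hn1 hL0 (by positivity)
    have h11 : (2 * x ^ 6) * x ≤ 2 * ((1 + ε) / ε) * x ^ 9 := by
      have h12 : x ^ 7 ≤ x ^ 9 := pow_le_pow_right₀ hx1 (by norm_num)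
      have h13 : (0 : ℝ) ≤ x ^ 9 := by positivity
      calc (2 * x ^ 6) * x = 2 * x ^ 7 := by ring
        _ ≤ 2 * x ^ 9 := by linarith
        _ ≤ 2 * ((1 + ε) / ε) * x ^ 9 := by nlinarith
    have h14 : 110 * ((1 + ε) / ε) * x ^ 9 ≤ t / 2 * n := by
      rw [← hx12]
      have h15 : 1000 * (1 + ε) / (ε * t) ≤ x := hn3
      rw [div_le_iff₀ (by positivity)] at h15
      have h16 : 110 * ((1 + ε) / ε) ≤ t / 2 * x := by
        have h17 : 110 * ((1 + ε) / ε) = (110 * (1 + ε)) / ε := by ring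
        rw [h17, div_le_iff₀ hε]
        nlinarith
      have h18 : x ^ 10 ≤ x ^ 12 := pow_le_pow_right₀ hx1 (by norm_num)
      calc 110 * ((1 + ε) / ε) * x ^ 9 ≤ (t / 2 * x) * x ^ 9 :=
            mul_le_mul_of_nonneg_right h16 (by positivity)
        _ = t / 2 * x ^ 10 := by ring
        _ ≤ t / 2 * x ^ 12 := mul_le_mul_of_nonneg_left h18 (by positivity)
    calc (J : ℝ) * ((Q : ℝ) * Real.log ((n : ℝ) ^ 2 + 1) + Real.log n) + s0 * Real.log n
        ≤ (3 * x) * (36 * ((1 + ε) / ε) * x ^ 8) + 2 * ((1 + ε) / ε) * x ^ 9 := by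
          linarith
      _ = 110 * ((1 + ε) / ε) * x ^ 9 := by ring
      _ ≤ _ := h14
  have h19 : 16 * (1 + 2 * ε) ≤ 16 * Real.exp (t / 2) := by
    have := Real.add_one_le_exp (t / 2)
    linarith
  calc (16 * (1 + 2 * ε)) ^ n * ((((n : ℝ) ^ 2 + 1) ^ Q * n) ^ J * (n : ℝ) ^ s0)
      ≤ (16 * Real.exp (t / 2)) ^ n * Real.exp (t / 2 * n) := by
        refine mul_le_mul (pow_le_pow_left₀ (by positivity) h19 _) h3 (by positivity)
          (by positivity)
    _ = K ^ n := by
        have h20 : Real.exp (t / 2 * n) = Real.exp (t / 2) ^ n := by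
          rw [mul_comm, ← Real.exp_nat_mul]
        rw [h20, ← mul_pow]
        congr 1
        have h21 : Real.exp (t / 2) * Real.exp (t / 2) = K / 16 := by
          rw [← Real.exp_add, add_halves, ht, Real.exp_log (by linarith)]
        rw [mul_assoc, h21]
        ring

end Pool.MP_d821cf_co
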