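import Mathlib

/-!
# Costas permutations: definitions
-/

set_option autoImplicit false

namespace Pool.MP_d821cf_co

/-- A permutation `f` of `{0, …, n-1}` is a Costas permutation if the displacement vectors
`(j - i, f j - f i)`, `i < j`, are pairwise distinct. -/
def IsCostas {n : ℕ} (f : Equiv.Perm (Fin n)) : Prop :=
  ∀ i j k l : Fin n, i < j → k < l → (j : ℤ) - i = (l : ℤ) - k →
    ((f j : Fin n) : ℤ) - (f i : Fin n) = ((f l : Fin n) : ℤ) - (f k : Fin n) → i = k ∧ j = l

/-- The number of Costas permutations of `{0, …, n-1}`. -/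
noncomputable def C (n : ℕ) : ℕ := Nat.card {f : Equiv.Perm (Fin n) // IsCostas f}

/-- The proportion of Costas permutations among all permutations. -/
noncomputable def r (n : ℕ) : ℝ := (C n : ℝ) / (n.factorial : ℝ)

end Pool.MP_d821cf_co
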