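import Mathlib

/-!
# Partial Costas arrays and supersaturation
-/

set_option autoImplicit false

namespace Pool.MP_d821cf_co

open Finset

/-- A map from `s` consecutive rows to `n` columns with distinct displacement vectors. -/
def PSid {s n : ℕ} (g : Fin s → Fin n) : Prop :=
  ∀ i j k l : Fin s, i ≠ j → (j : ℤ) - i = (l : ℤ) - k →
    ((g j : Fin n) : ℤ) - (g i : Fin n) = ((g l : Fin n) : ℤ) - (g k : Fin n) → i = k

/-- Two points whose difference is a displacement vector of `g`. -/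
def Adj {a b n : ℕ} (g : Fin a → Fin n) (v w : Fin b × Fin n) : Prop :=
  ∃ i j : Fin a, i ≠ j ∧ (v.1 : ℤ) - w.1 = (i : ℤ) - j ∧
    (v.2 : ℤ) - w.2 = ((g i : Fin n) : ℤ) - (g j : Fin n)

open Classical in
theorem super_sum {a n : ℕ} (ha : 1 ≤ a) {g : Fin a → Fin n} (hg : PSid g)
    (A : Finset (Fin a × Fin n)) :
    ((A.card : ℝ) * a) ^ 2 ≤ 4 * a * n * ((A.card : ℝ) * a +
      ∑ v ∈ A, ((A.filter (fun w => Adj g v w)).card : ℝ)) := by
  set X : Finset ((Fin a × Fin n) × Fin a) := A ×ˢ univ with hX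
  let φ : (Fin a × Fin n) × Fin a → ℕ × ℕ := fun p => (p.1.1 + p.2, p.1.2 + g p.2)
  set Z : Finset (ℕ × ℕ) := range (2 * a) ×ˢ range (2 * n) with hZ
  have hφ : ∀ p ∈ X, φ p ∈ Z := by
    intro p _
    rw [hZ, mem_product, mem_range, mem_range]
    have h1 := p.1.1.2
    have h2 := p.2.2
    have h3 := p.1.2.2
    have h4 := (g p.2).2
    constructor
    · change (p.1.1 : ℕ) + (p.2 : ℕ) < 2 * a
      omega
    · change (p.1.2 : ℕ) + (g p.2 : ℕ) < 2 * n
      omega
  have hXc : X.card = A.card * a := by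
    rw [hX, card_product, card_univ, Fintype.card_fin]
  have h1 : X.card = ∑ z ∈ Z, (X.filter (fun p => φ p = z)).card :=
    card_eq_sum_card_fiberwise hφ
  have h2 := sq_sum_le_card_mul_sum_sq (s := Z)
    (f := fun z => ((X.filter (fun p => φ p = z)).card : ℝ))
  -- pairs with the same image
  set P : Finset (((Fin a × Fin n) × Fin a) × ((Fin a × Fin n) × Fin a)) :=
    (X ×ˢ X).filter (fun p => φ p.1 = φ p.2) with hP
  have h3 : P.card = ∑ z ∈ Z, (X.filter (fun p => φ p = z)).card ^ 2 := by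
    have e1 : P.card = ∑ z ∈ Z, (P.filter (fun p => φ p.1 = z)).card := by
      refine card_eq_sum_card_fiberwise ?_
      intro p hp
      have hp' : p ∈ P := hp
      rw [hP, mem_filter, mem_product] at hp'
      exact hφ _ hp'.1.1
    rw [e1]
    refine sum_congr rfl fun z _ => ?_
    have e2 : P.filter (fun p => φ p.1 = z) =
        (X.filter (fun p => φ p = z)) ×ˢ (X.filter (fun p => φ p = z)) := by
      ext p
      rw [hP]
      simp only [mem_filter, mem_product]
      constructor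
      · rintro ⟨⟨⟨h1, h2⟩, h3⟩, h4⟩
        exact ⟨⟨h1, h4⟩, h2, h3 ▸ h4⟩
      · rintro ⟨⟨h1, h2⟩, h3, h4⟩
        exact ⟨⟨⟨h1, h3⟩, h2.trans h4.symm⟩, h2⟩
    rw [e2, card_product, sq]
  -- the bound for the number of pairs
  have h4 : P.card ≤ X.card + ∑ v ∈ A, (A.filter (fun w => Adj g v w)).card := by
    have e1 : (P.filter (fun p => p.1 = p.2)).card ≤ X.card := by
      refine card_le_card_of_injOn (fun p => p.1) ?_ ?_
      · intro p hp
        have hp' : p ∈ P.filter (fun p => p.1 = p.2) := hp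
        rw [mem_filter, hP, mem_filter, mem_product] at hp'
        exact hp'.1.1.1
      · intro p hp p' hp' h
        have hp1 : p ∈ P.filter (fun p => p.1 = p.2) := hp
        have hp2 : p' ∈ P.filter (fun p => p.1 = p.2) := hp'
        rw [mem_filter] at hp1 hp2
        have h' : p.1 = p'.1 := h
        exact Prod.ext h' (by rw [← hp1.2, h', hp2.2])
    have e2 : (P.filter (fun p => ¬ p.1 = p.2)).card ≤
        (A.sigma (fun v => A.filter (fun w => Adj g v w))).card := by
      -- off-diagonal pairs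
      have key : ∀ p ∈ P.filter (fun p => ¬ p.1 = p.2), p.1.1 ∈ A ∧ p.2.1 ∈ A ∧
          p.2.2 ≠ p.1.2 ∧ (p.1.1.1 : ℤ) - p.2.1.1 = (p.2.2 : ℤ) - p.1.2 ∧
          (p.1.1.2 : ℤ) - p.2.1.2 = ((g p.2.2 : Fin n) : ℤ) - (g p.1.2 : Fin n) := by
        intro p hp
        rw [mem_filter, hP, mem_filter, mem_product, hX, mem_product, mem_product] at hp
        obtain ⟨⟨⟨⟨h1, -⟩, h2, -⟩, h3⟩, h4⟩ := hp
        have h5 : ((p.1.1.1 : ℕ) + (p.1.2 : ℕ), (p.1.1.2 : ℕ) + (g p.1.2 : ℕ)) =
          ((p.2.1.1 : ℕ) + (p.2.2 : ℕ), (p.2.1.2 : ℕ) + (g p.2.2 : ℕ)) := h3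
        rw [Prod.mk.injEq] at h5
        obtain ⟨h6, h7⟩ := h5
        refine ⟨h1, h2, ?_, by omega, by omega⟩
        intro h8
        apply h4
        rw [h8] at h6 h7
        refine Prod.ext (Prod.ext (Fin.ext (by omega)) (Fin.ext (by omega))) h8.symm
      refine card_le_card_of_injOn (fun p => ⟨p.1.1, p.2.1⟩) ?_ ?_
      · intro p hp
        obtain ⟨h1, h2, h3, h4, h5⟩ := key p hp
        have : (⟨p.1.1, p.2.1⟩ : Σ _ : Fin a × Fin n, Fin a × Fin n) ∈
            A.sigma (fun v => A.filter (fun w => Adj g v w)) := by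
          rw [mem_sigma, mem_filter]
          exact ⟨h1, h2, p.2.2, p.1.2, h3, h4, h5⟩
        exact this
      · intro p hp p' hp' h
        obtain ⟨h1, h2, h3, h4, h5⟩ := key p hp
        obtain ⟨h1', h2', h3', h4', h5'⟩ := key p' hp'
        have h' : (⟨p.1.1, p.2.1⟩ : Σ _ : Fin a × Fin n, Fin a × Fin n) = ⟨p'.1.1, p'.2.1⟩ := h
        rw [Sigma.mk.injEq] at h'
        obtain ⟨e1, e2⟩ := h'
        have e2 := eq_of_heq e2
        rw [e1, e2] at h4 h5
        have h6 : p.1.2 = p'.1.2 := hg p.1.2 p.2.2 p'.1.2 p'.2.2 (Ne.symm h3)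
          (h4.symm.trans h4') (h5.symm.trans h5')
        have h7 : p.2.2 = p'.2.2 := by
          rw [h6] at h4
          apply Fin.ext
          have := h4.symm.trans h4'
          omega
        exact Prod.ext (Prod.ext e1 h6) (Prod.ext e2 h7)
    have e3 := card_filter_add_card_filter_not (s := P) (fun p => p.1 = p.2)
    rw [card_sigma] at e2
    omega
  have hZc : Z.card = 4 * a * n := by
    rw [hZ, card_product, card_range, card_range]
    ring
  have h5 : (X.card : ℝ) = ∑ z ∈ Z, ((X.filter (fun p => φ p = z)).card : ℝ) := by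
    rw [h1]
    push_cast
    rfl
  have h6 : (P.card : ℝ) = ∑ z ∈ Z, ((X.filter (fun p => φ p = z)).card : ℝ) ^ 2 := by
    rw [h3]
    push_cast
    rfl
  rw [← h5, ← h6, hZc] at h2
  have h7 : (P.card : ℝ) ≤ (X.card : ℝ) +
      ∑ v ∈ A, ((A.filter (fun w => Adj g v w)).card : ℝ) := by
    have := (Nat.cast_le (α := ℝ)).2 h4
    push_cast at this
    exact this
  have h8 : (X.card : ℝ) = (A.card : ℝ) * a := by
    rw [hXc]
    push_cast
    rfl
  rw [h8] at h2 h7
  refine h2.trans ?_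
  push_cast
  exact mul_le_mul_of_nonneg_left h7 (by positivity)

open Classical in
/-- Supersaturation: a large set contains a point of large degree. -/
theorem super_deg {a n : ℕ} (ha : 1 ≤ a) {g : Fin a → Fin n} (hg : PSid g)
    {ε : ℝ} (hε : 0 < ε) (A : Finset (Fin a × Fin n))
    (hA : 4 * n * (1 + ε) ≤ (A.card : ℝ)) (hn : 1 ≤ n) :
    ∃ v ∈ A, a * ε / (4 * n * (1 + ε)) * (A.card : ℝ) ≤
      ((A.filter (fun w => Adj g v w)).card : ℝ) := by
  have ha' : (0 : ℝ) < a := by exact_mod_cast ha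
  have hn' : (0 : ℝ) < n := by exact_mod_cast hn
  by_contra hcon
  push Not at hcon
  have hpos : (0 : ℝ) < A.card := lt_of_lt_of_le (by positivity) hA
  have hne : A.Nonempty := by
    rw [← card_pos]
    exact_mod_cast hpos
  have h1 : ∑ v ∈ A, ((A.filter (fun w => Adj g v w)).card : ℝ) <
      ∑ v ∈ A, a * ε / (4 * n * (1 + ε)) * (A.card : ℝ) := sum_lt_sum_of_nonempty hne hcon
  rw [sum_const, nsmul_eq_mul] at h1
  have h2 := super_sum ha hg A
  set x : ℝ := (A.card : ℝ) with hx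
  have h3 : (x * a) ^ 2 < 4 * a * n * (x * a + x * (a * ε / (4 * n * (1 + ε)) * x)) :=
    lt_of_le_of_lt h2 (mul_lt_mul_of_pos_left (by linarith) (by positivity))
  have h4 : 4 * a * n * (x * a + x * (a * ε / (4 * n * (1 + ε)) * x)) =
      a ^ 2 * x * (4 * n + ε / (1 + ε) * x) := by
    field_simp
  rw [h4] at h3
  have h5 : (x * a) ^ 2 = a ^ 2 * x * x := by ring
  rw [h5] at h3
  have h6 : x < 4 * n + ε / (1 + ε) * x := lt_of_mul_lt_mul_left h3 (by positivity)
  have h7 : x / (1 + ε) < 4 * n := by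
    have : x / (1 + ε) = x - ε / (1 + ε) * x := by
      field_simp
      ring
    rw [this]
    linarith
  rw [div_lt_iff₀ (by positivity)] at h7
  linarith

end Pool.MP_d821cf_co
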