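import Pool.Agent.Lib.MP_d821cf_co.KW
import Pool.Agent.Lib.MP_d821cf_co.Super
import Pool.Agent.Lib.MP_d821cf_co.Defs

/-!
# Counting partial Costas arrays: the doubling step
-/

set_option autoImplicit false

namespace Pool.MP_d821cf_co

open Finset

open Classical in
/-- The number of partial Costas arrays with `s` rows and `n` columns. -/
noncomputable def N (s n : ℕ) : ℕ := (univ.filter (fun g : Fin s → Fin n => PSid g)).card

theorem N_triv (s n : ℕ) : N s n ≤ n ^ s := by
  classical
  unfold N
  refine (card_filter_le _ _).trans ?_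
  rw [card_univ, Fintype.card_fun, Fintype.card_fin, Fintype.card_fin]

theorem C_le_N (n : ℕ) : C n ≤ N n n := by
  classical
  unfold C N
  rw [Nat.card_eq_fintype_card, ← Finset.card_univ]
  refine card_le_card_of_injOn (fun f => fun i => f.1 i) ?_ ?_
  · intro f _
    have : (fun i => f.1 i) ∈ univ.filter (fun g : Fin n → Fin n => PSid g) := by
      rw [mem_filter]
      refine ⟨mem_univ _, ?_⟩
      intro i j k l hij h1 h2
      have h2 : ((f.1 j : Fin n) : ℤ) - (f.1 i : Fin n) =
        ((f.1 l : Fin n) : ℤ) - (f.1 k : Fin n) := h2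
      rcases lt_or_gt_of_ne hij with h | h
      · exact (f.2 i j k l h (by
          have : (i : ℤ) < j := by exact_mod_cast h
          have h3 : (k : ℤ) < l := by omega
          exact_mod_cast h3) h1 h2).1
      · exact (f.2 j i l k h (by
          have : (j : ℤ) < i := by exact_mod_cast h
          have h3 : (l : ℤ) < k := by omega
          exact_mod_cast h3) (by omega) (by omega)).2
    exact this
  · intro f _ f' _ h
    apply Subtype.ext
    apply Equiv.ext
    intro i
    exact congrFun h i

theorem N_succ (s n : ℕ) : N (s + 1) n ≤ n * N s n := by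
  classical
  have h1 : N (s + 1) n ≤
      ((univ : Finset (Fin n)) ×ˢ univ.filter (fun g : Fin s → Fin n => PSid g)).card := by
    unfold N
    refine card_le_card_of_injOn (fun f => (f (Fin.last s), fun i => f i.castSucc)) ?_ ?_
    · intro f hf
      have hf' : PSid f := by
        have : f ∈ univ.filter (fun g : Fin (s + 1) → Fin n => PSid g) := hf
        rw [mem_filter] at this
        exact this.2
      have : (f (Fin.last s), fun i : Fin s => f i.castSucc) ∈
          (univ : Finset (Fin n)) ×ˢ univ.filter (fun g : Fin s → Fin n => PSid g) := by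
        rw [mem_product, mem_filter]
        refine ⟨mem_univ _, mem_univ _, ?_⟩
        intro i j k l hij h1 h2
        have := hf' i.castSucc j.castSucc k.castSucc l.castSucc
          (fun h => hij (Fin.castSucc_injective _ h)) h1 h2
        exact Fin.castSucc_injective _ this
      exact this
    · intro f _ f' _ h
      have h' : (f (Fin.last s), fun i : Fin s => f i.castSucc) =
        (f' (Fin.last s), fun i : Fin s => f' i.castSucc) := h
      rw [Prod.mk.injEq] at h'
      funext i
      refine Fin.lastCases ?_ (fun i => ?_) i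
      · exact h'.1
      · exact congrFun h'.2 i
  rw [card_product, card_univ, Fintype.card_fin] at h1
  exact h1

open Classical in
/-- The number of continuations of a partial Costas array. -/
theorem card_indep {a n q : ℕ} (ha : 1 ≤ a) (han : a ≤ n) {ε : ℝ} (hε : 0 < ε) (hε1 : ε ≤ 1)
    (hq : (1 - a * ε / (4 * n * (1 + ε))) ^ q * ((a : ℝ) * n) < 4 * n * (1 + ε))
    {g : Fin a → Fin n} (hg : PSid g) :
    ((univ.filter (fun h : Fin a → Fin n => ∀ x y : Fin a, (x, h x) ≠ (y, h y) →
      ¬ Adj g (x, h x) (y, h y))).card : ℝ) ≤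
      (a * n + 1 : ℝ) ^ q * ((4 * n * (1 + ε) + q) / a) ^ a := by
  have hn : 1 ≤ n := ha.trans han
  have ha' : (0 : ℝ) < a := by exact_mod_cast ha
  have hn' : (0 : ℝ) < n := by exact_mod_cast hn
  have han' : (a : ℝ) ≤ n := by exact_mod_cast han
  have hβ1 : a * ε / (4 * n * (1 + ε)) ≤ 1 := by
    rw [div_le_one (by positivity)]
    nlinarith
  obtain ⟨cont, hc1, hc2⟩ := kw (Adj (b := a) g) (4 * n * (1 + ε)) (a * ε / (4 * n * (1 + ε))) hβ1
    (fun A hA => super_deg ha hg hε A hA hn) _ univ rfl q (by
      rw [card_univ, Fintype.card_prod, Fintype.card_fin, Fintype.card_fin]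
      push_cast
      exact hq)
  have h1 : (univ.filter (fun h : Fin a → Fin n => ∀ x y : Fin a, (x, h x) ≠ (y, h y) →
      ¬ Adj g (x, h x) (y, h y))) ⊆
      (univ.filter (fun F : Finset (Fin a × Fin n) => F.card ≤ q)).biUnion
        (fun F => univ.filter (fun h : Fin a → Fin n => ∀ x, (x, h x) ∈ F ∪ cont F)) := by
    intro h hh
    rw [mem_filter] at hh
    obtain ⟨F, hF1, hF2, hF3⟩ := hc2 (univ.image (fun x => (x, h x))) (subset_univ _) (by
      intro v hv w hw hvw
      rw [mem_image] at hv hw
      obtain ⟨x, -, rfl⟩ := hv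
      obtain ⟨y, -, rfl⟩ := hw
      exact hh.2 x y hvw)
    rw [mem_biUnion]
    refine ⟨F, ?_, ?_⟩
    · rw [mem_filter]
      exact ⟨mem_univ _, hF2⟩
    · rw [mem_filter]
      refine ⟨mem_univ _, fun x => ?_⟩
      rw [mem_union]
      exact hF3 _ (mem_image_of_mem _ (mem_univ x))
  have h2 := (card_le_card h1).trans card_biUnion_le
  have h3 : ((univ.filter (fun h : Fin a → Fin n => ∀ x y : Fin a, (x, h x) ≠ (y, h y) →
      ¬ Adj g (x, h x) (y, h y))).card : ℝ) ≤
      ∑ F ∈ univ.filter (fun F : Finset (Fin a × Fin n) => F.card ≤ q),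
        ((univ.filter (fun h : Fin a → Fin n => ∀ x, (x, h x) ∈ F ∪ cont F)).card : ℝ) := by
    exact_mod_cast h2
  refine h3.trans ?_
  have h4 : ∀ F ∈ univ.filter (fun F : Finset (Fin a × Fin n) => F.card ≤ q),
      ((univ.filter (fun h : Fin a → Fin n => ∀ x, (x, h x) ∈ F ∪ cont F)).card : ℝ) ≤
        ((4 * n * (1 + ε) + q) / a) ^ a := by
    intro F hF
    rw [mem_filter] at hF
    refine card_transversal ha _ (by positivity) ?_
    have h5 : ((F ∪ cont F).card : ℝ) ≤ (F.card : ℝ) + ((cont F).card : ℝ) := by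
      exact_mod_cast card_union_le F (cont F)
    have h6 : (F.card : ℝ) ≤ q := by exact_mod_cast hF.2
    linarith [hc1 F]
  refine (sum_le_sum h4).trans ?_
  rw [sum_const, nsmul_eq_mul]
  refine mul_le_mul_of_nonneg_right ?_ (by positivity)
  have h7 := card_small (V := Fin a × Fin n) q
  rw [Fintype.card_prod, Fintype.card_fin, Fintype.card_fin] at h7
  exact_mod_cast h7

/-- The doubling step. -/
theorem N_double {a n q : ℕ} (ha : 1 ≤ a) (han : a ≤ n) {ε : ℝ} (hε : 0 < ε) (hε1 : ε ≤ 1)
    (hq : (1 - a * ε / (4 * n * (1 + ε))) ^ q * ((a : ℝ) * n) < 4 * n * (1 + ε)) :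
    (N (a + a) n : ℝ) ≤
      N a n * ((a * n + 1 : ℝ) ^ q * ((4 * n * (1 + ε) + q) / a) ^ a) := by
  classical
  have h1 : N (a + a) n ≤ ((univ.filter (fun g : Fin a → Fin n => PSid g)).sigma
      (fun g => univ.filter (fun h : Fin a → Fin n => ∀ x y : Fin a, (x, h x) ≠ (y, h y) →
        ¬ Adj g (x, h x) (y, h y)))).card := by
    unfold N
    refine card_le_card_of_injOn (fun f => ⟨fun i => f (Fin.castAdd a i),
      fun i => f (Fin.natAdd a i)⟩) ?_ ?_
    · intro f hf
      have hf' : PSid f := by
        have : f ∈ univ.filter (fun g : Fin (a + a) → Fin n => PSid g) := hf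
        rw [mem_filter] at this
        exact this.2
      have : (⟨fun i => f (Fin.castAdd a i), fun i => f (Fin.natAdd a i)⟩ :
          Σ _ : Fin a → Fin n, Fin a → Fin n) ∈
          ((univ.filter (fun g : Fin a → Fin n => PSid g)).sigma
            (fun g => univ.filter (fun h : Fin a → Fin n => ∀ x y : Fin a,
              (x, h x) ≠ (y, h y) → ¬ Adj g (x, h x) (y, h y)))) := by
        rw [mem_sigma, mem_filter, mem_filter]
        refine ⟨⟨mem_univ _, ?_⟩, mem_univ _, ?_⟩
        · intro i j k l hij h1 h2
          have := hf' (Fin.castAdd a i) (Fin.castAdd a j) (Fin.castAdd a k) (Fin.castAdd a l)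
            (fun h => hij (Fin.castAdd_injective _ _ h)) h1 h2
          exact Fin.castAdd_injective _ _ this
        · rintro x y - ⟨i, j, hij, h1, h2⟩
          have h1' : (x : ℤ) - y = (i : ℤ) - j := h1
          have := hf' (Fin.castAdd a j) (Fin.castAdd a i) (Fin.natAdd a y) (Fin.natAdd a x)
            (fun h => hij (Fin.castAdd_injective _ _ h).symm) (by
              rw [Fin.val_castAdd, Fin.val_castAdd, Fin.val_natAdd, Fin.val_natAdd]
              push_cast
              omega) h2.symm
          have h3 := congrArg Fin.val this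
          rw [Fin.val_castAdd, Fin.val_natAdd] at h3
          have := j.2
          omega
      exact this
    · intro f _ f' _ h
      have h' : (⟨fun i => f (Fin.castAdd a i), fun i => f (Fin.natAdd a i)⟩ :
          Σ _ : Fin a → Fin n, Fin a → Fin n) =
        ⟨fun i => f' (Fin.castAdd a i), fun i => f' (Fin.natAdd a i)⟩ := h
      rw [Sigma.mk.injEq] at h'
      obtain ⟨e1, e2⟩ := h'
      have e2 := eq_of_heq e2
      funext i
      refine Fin.addCases (fun i => ?_) (fun i => ?_) i
      · exact congrFun e1 i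
      · exact congrFun e2 i
  rw [card_sigma] at h1
  have h2 : (N (a + a) n : ℝ) ≤ ∑ g ∈ univ.filter (fun g : Fin a → Fin n => PSid g),
      ((univ.filter (fun h : Fin a → Fin n => ∀ x y : Fin a, (x, h x) ≠ (y, h y) →
        ¬ Adj g (x, h x) (y, h y))).card : ℝ) := by
    exact_mod_cast h1
  refine h2.trans ((sum_le_sum (fun g hg => card_indep (q := q) ha han hε hε1 hq
    (mem_filter.1 hg).2)).trans ?_)
  rw [sum_const, nsmul_eq_mul]
  exact le_rfl

end Pool.MP_d821cf_co
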