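import Mathlib

/-!
# The Kleitman-Winston container lemma and two counting lemmas
-/

set_option autoImplicit false

namespace Pool.MP_d821cf_co

open Finset

open Classical in
/-- **Kleitman-Winston.** If every set with at least `R` elements has a vertex of degree at least
`β` times its size, then the independent subsets of `A` are covered by few containers. -/
theorem kw {V : Type*} (adj : V → V → Prop) (R β : ℝ) (hβ1 : β ≤ 1)
    (hmax : ∀ A : Finset V, R ≤ (A.card : ℝ) →
      ∃ v ∈ A, β * (A.card : ℝ) ≤ ((A.filter (fun w => adj v w)).card : ℝ)) :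
    ∀ (m : ℕ) (A : Finset V), A.card = m → ∀ q : ℕ, (1 - β) ^ q * (A.card : ℝ) < R →
      ∃ cont : Finset V → Finset V, (∀ F, ((cont F).card : ℝ) ≤ R) ∧
        ∀ I : Finset V, I ⊆ A → (∀ v ∈ I, ∀ w ∈ I, v ≠ w → ¬ adj v w) →
          ∃ F : Finset V, F ⊆ I ∧ F.card ≤ q ∧ ∀ x ∈ I, x ∈ F ∨ x ∈ cont F := by
  intro m
  induction m using Nat.strong_induction_on with
  | _ m ih =>
  intro A hA q hq
  by_cases hlt : (A.card : ℝ) < R
  · refine ⟨fun _ => A, fun _ => hlt.le, fun I hI _ => ⟨∅, empty_subset _, by simp, ?_⟩⟩
    exact fun x hx => Or.inr (hI hx)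
  · have hge : R ≤ (A.card : ℝ) := not_lt.1 hlt
    obtain ⟨v, hv, hdeg⟩ := hmax A hge
    cases q with
    | zero =>
      rw [pow_zero, one_mul] at hq
      exact absurd hq hlt
    | succ q =>
      have hpos : 0 < A.card := card_pos.2 ⟨v, hv⟩
      -- the two smaller sets
      have hA1 : (A.erase v).card < m := by
        rw [card_erase_of_mem hv]
        omega
      have hA2 : ((A.erase v).filter (fun w => ¬ adj v w)).card < m :=
        lt_of_le_of_lt (card_filter_le _ _) hA1
      have h1β : 0 ≤ 1 - β := by linarith
      have hc1 : ((A.erase v).card : ℝ) ≤ (A.card : ℝ) := by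
        exact_mod_cast card_le_card (erase_subset v A)
      have hc2 : (((A.erase v).filter (fun w => ¬ adj v w)).card : ℝ) ≤
          (1 - β) * (A.card : ℝ) := by
        have h1 : ((A.erase v).filter (fun w => ¬ adj v w)) ⊆ A.filter (fun w => ¬ adj v w) :=
          filter_subset_filter _ (erase_subset v A)
        have h2 : ((A.erase v).filter (fun w => ¬ adj v w)).card ≤
            (A.filter (fun w => ¬ adj v w)).card := card_le_card h1
        have h3 : (A.filter (fun w => adj v w)).card + (A.filter (fun w => ¬ adj v w)).card =
            A.card := card_filter_add_card_filter_not (fun w => adj v w)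
        have h4 : ((A.filter (fun w => adj v w)).card : ℝ) +
            ((A.filter (fun w => ¬ adj v w)).card : ℝ) = (A.card : ℝ) := by exact_mod_cast h3
        have h5 : (((A.erase v).filter (fun w => ¬ adj v w)).card : ℝ) ≤
            ((A.filter (fun w => ¬ adj v w)).card : ℝ) := by exact_mod_cast h2
        linarith
      obtain ⟨c1, hc1R, hc1⟩ := ih _ hA1 (A.erase v) rfl (q + 1) (lt_of_le_of_lt
        (mul_le_mul_of_nonneg_left hc1 (pow_nonneg h1β _)) hq)
      obtain ⟨c2, hc2R, hc2⟩ := ih _ hA2 ((A.erase v).filter (fun w => ¬ adj v w)) rfl q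
        (lt_of_le_of_lt (mul_le_mul_of_nonneg_left hc2 (pow_nonneg h1β _)) (by
          rw [← mul_assoc, ← pow_succ]; exact hq))
      refine ⟨fun F => if v ∈ F then c2 (F.erase v) else c1 F, ?_, ?_⟩
      · intro F
        by_cases h : v ∈ F
        · simp only [h, if_true]
          exact hc2R _
        · simp only [h, if_false]
          exact hc1R _
      · intro I hI hind
        by_cases hvI : v ∈ I
        · obtain ⟨F, hF1, hF2, hF3⟩ := hc2 (I.erase v) (by
            intro w hw
            rw [mem_erase] at hw
            rw [mem_filter, mem_erase]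
            exact ⟨⟨hw.1, hI hw.2⟩, hind v hvI w hw.2 (Ne.symm hw.1)⟩) (by
            intro x hx y hy hxy
            exact hind x (mem_of_mem_erase hx) y (mem_of_mem_erase hy) hxy)
          have hvF : v ∉ F := fun h => notMem_erase v I (hF1 h)
          refine ⟨insert v F, ?_, ?_, ?_⟩
          · intro w hw
            rw [mem_insert] at hw
            rcases hw with rfl | hw
            · exact hvI
            · exact mem_of_mem_erase (hF1 hw)
          · rw [card_insert_of_notMem hvF]
            omega
          · simp only [mem_insert_self, if_true, erase_insert hvF]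
            intro w hw
            by_cases hwv : w = v
            · rw [hwv]
              exact Or.inl (mem_insert_self _ _)
            · rcases hF3 w (mem_erase.2 ⟨hwv, hw⟩) with h | h
              · exact Or.inl (mem_insert_of_mem h)
              · exact Or.inr h
        · obtain ⟨F, hF1, hF2, hF3⟩ := hc1 I (by
            intro w hw
            rw [mem_erase]
            exact ⟨fun h => hvI (h ▸ hw), hI hw⟩) hind
          have hvF : v ∉ F := fun h => hvI (hF1 h)
          refine ⟨F, hF1, hF2, ?_⟩
          simp only [hvF, if_false]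
          exact hF3

open Classical in
/-- The number of subsets with at most `q` elements. -/
theorem card_small {V : Type*} [Fintype V] (q : ℕ) :
    (univ.filter (fun F : Finset V => F.card ≤ q)).card ≤ (Fintype.card V + 1) ^ q := by
  have h1 : (univ.filter (fun F : Finset V => F.card ≤ q)).card ≤
      (univ : Finset (Fin q → Option V)).card := by
    refine card_le_card_of_surjOn (fun t => univ.filter (fun v => ∃ i, t i = some v)) ?_
    intro F hF
    have hF' : F.card ≤ q := by simpa using hF
    refine ⟨fun i => F.toList[i.1]?, by simp, ?_⟩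
    ext v
    simp only [mem_filter, mem_univ, true_and]
    rw [← Finset.mem_toList, List.mem_iff_getElem?]
    constructor
    · rintro ⟨i, hi⟩
      exact ⟨i.1, hi⟩
    · rintro ⟨i, hi⟩
      have hlt : i < F.toList.length := by
        rw [List.getElem?_eq_some_iff] at hi
        exact hi.1
      rw [Finset.length_toList] at hlt
      exact ⟨⟨i, lt_of_lt_of_le hlt hF'⟩, hi⟩
  refine h1.trans ?_
  rw [card_univ, Fintype.card_fun, Fintype.card_option, Fintype.card_fin]

open Classical in
/-- The number of transversals of a set `E` with at most `M` elements. -/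
theorem card_transversal {a n : ℕ} (ha : 1 ≤ a) (E : Finset (Fin a × Fin n)) {M : ℝ}
    (hM0 : 0 < M) (hM : (E.card : ℝ) ≤ M) :
    ((univ.filter (fun h : Fin a → Fin n => ∀ x, (x, h x) ∈ E)).card : ℝ) ≤ (M / a) ^ a := by
  have ha' : (0 : ℝ) < a := by exact_mod_cast ha
  have h1 : (univ.filter (fun h : Fin a → Fin n => ∀ x, (x, h x) ∈ E)) =
      Fintype.piFinset (fun x => univ.filter (fun y => (x, y) ∈ E)) := by
    ext h
    simp [Fintype.mem_piFinset]
  rw [h1, Fintype.card_piFinset]
  push_cast
  have h2 : ∑ x : Fin a, ((univ.filter (fun y : Fin n => (x, y) ∈ E)).card : ℝ) = E.card := by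
    have : E.card = ∑ x : Fin a, (univ.filter (fun y : Fin n => (x, y) ∈ E)).card := by
      have e1 : E = univ.filter (fun p : Fin a × Fin n => p ∈ E) := by
        ext p
        simp
      conv_lhs => rw [e1, card_filter, Fintype.sum_prod_type]
      refine sum_congr rfl fun x _ => ?_
      rw [card_filter]
    rw [this]
    push_cast
    rfl
  have h3 : ∀ x : Fin a, ((univ.filter (fun y : Fin n => (x, y) ∈ E)).card : ℝ) ≤
      M / (Real.exp 1 * a) *
        Real.exp (((univ.filter (fun y : Fin n => (x, y) ∈ E)).card : ℝ) * (a / M)) := by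
    intro x
    set m : ℝ := ((univ.filter (fun y : Fin n => (x, y) ∈ E)).card : ℝ) with hm
    have h4 := Real.add_one_le_exp (m * (a / M) - 1)
    rw [sub_add_cancel, Real.exp_sub] at h4
    have h5 : m = M / a * (m * (a / M)) := by
      field_simp
    calc m = M / a * (m * (a / M)) := h5
      _ ≤ M / a * (Real.exp (m * (a / M)) / Real.exp 1) :=
        mul_le_mul_of_nonneg_left h4 (by positivity)
      _ = _ := by
        have := (Real.exp_pos 1).ne'
        field_simp
  calc ∏ x : Fin a, ((univ.filter (fun y : Fin n => (x, y) ∈ E)).card : ℝ)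
      ≤ ∏ x : Fin a, (M / (Real.exp 1 * a) *
        Real.exp (((univ.filter (fun y : Fin n => (x, y) ∈ E)).card : ℝ) * (a / M))) :=
        prod_le_prod (fun _ _ => Nat.cast_nonneg _) (fun x _ => h3 x)
    _ = (M / (Real.exp 1 * a)) ^ a * Real.exp (E.card * (a / M)) := by
        rw [prod_mul_distrib, prod_const, card_univ, Fintype.card_fin, ← Real.exp_sum,
          ← sum_mul, h2]
    _ ≤ (M / (Real.exp 1 * a)) ^ a * Real.exp a := by
        refine mul_le_mul_of_nonneg_left (Real.exp_le_exp.2 ?_) (by positivity)
        calc (E.card : ℝ) * (a / M) ≤ M * (a / M) :=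
              mul_le_mul_of_nonneg_right hM (by positivity)
          _ = a := by field_simp
    _ = (M / a) ^ a := by
        have h6 : Real.exp (a : ℝ) = Real.exp 1 ^ a := by
          rw [← Real.exp_nat_mul, mul_one]
        rw [h6, ← mul_pow]
        congr 1
        have := (Real.exp_pos 1).ne'
        field_simp

end Pool.MP_d821cf_co
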