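import Pool.Agent.Lib.MP_d821cf_co.Defs

/-!
# Welch's construction
-/

set_option autoImplicit false

namespace Pool.MP_d821cf_co

/-- **Welch.** There are Costas permutations of order `p - 1`. -/
theorem C_pos_of_prime {p : ℕ} (hp : p.Prime) : 0 < C (p - 1) := by
  classical
  have : Fact p.Prime := ⟨hp⟩
  have hp1 : 1 < p := hp.one_lt
  obtain ⟨g, hg⟩ := IsCyclic.exists_generator (α := (ZMod p)ˣ)
  have hord : orderOf g = p - 1 := by
    rw [orderOf_eq_card_of_forall_mem_zpowers hg, Nat.card_eq_fintype_card, ZMod.card_units]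
  have hval : ∀ i : ℕ, 0 < ((g ^ i : (ZMod p)ˣ) : ZMod p).val := by
    intro i
    rw [Nat.pos_iff_ne_zero, Ne, ZMod.val_eq_zero]
    exact Units.ne_zero _
  have hlt : ∀ i : ℕ, ((g ^ i : (ZMod p)ˣ) : ZMod p).val < p := fun i => ZMod.val_lt _
  let f : Fin (p - 1) → Fin (p - 1) := fun i =>
    ⟨((g ^ (i : ℕ) : (ZMod p)ˣ) : ZMod p).val - 1, by
      have := hval i
      have := hlt i
      omega⟩
  have hf : ∀ i : Fin (p - 1), ((f i : ℕ) : ℤ) =
      (((g ^ (i : ℕ) : (ZMod p)ˣ) : ZMod p).val : ℤ) - 1 := by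
    intro i
    change (((((g ^ (i : ℕ) : (ZMod p)ˣ) : ZMod p).val - 1 : ℕ)) : ℤ) = _
    have := hval i
    exact Nat.cast_pred this
  have hpow : ∀ i j : Fin (p - 1), g ^ (i : ℕ) = g ^ (j : ℕ) → i = j := by
    intro i j h
    apply Fin.ext
    rw [pow_inj_mod, hord] at h
    rwa [Nat.mod_eq_of_lt i.2, Nat.mod_eq_of_lt j.2] at h
  have hcast : ∀ i : Fin (p - 1), (((f i : ℕ) : ℤ) : ZMod p) =
      ((g ^ (i : ℕ) : (ZMod p)ˣ) : ZMod p) - 1 := by
    intro i
    rw [hf i]
    push_cast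
    rw [ZMod.natCast_zmod_val]
  have hinj : Function.Injective f := by
    intro i j h
    apply hpow
    apply Units.ext
    have h1 := hcast i
    rw [h, hcast j] at h1
    have h2 : ((g ^ (j : ℕ) : (ZMod p)ˣ) : ZMod p) = ((g ^ (i : ℕ) : (ZMod p)ˣ) : ZMod p) :=
      sub_left_injective h1
    exact h2.symm
  let F : Equiv.Perm (Fin (p - 1)) := Equiv.ofBijective f (Finite.injective_iff_bijective.1 hinj)
  have hF : IsCostas F := by
    intro i j k l hij hkl h1 h2
    have h2' : ((f j : ℕ) : ℤ) - ((f i : ℕ) : ℤ) = ((f l : ℕ) : ℤ) - ((f k : ℕ) : ℤ) := h2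
    have h3 := congrArg (fun z : ℤ => (z : ZMod p)) h2'
    simp only [Int.cast_sub] at h3
    rw [hcast, hcast, hcast, hcast] at h3
    have hij' : (i : ℕ) < j := hij
    have hkl' : (k : ℕ) < l := hkl
    obtain ⟨d, hd⟩ : ∃ d : ℕ, (j : ℕ) = i + d := ⟨j - i, by omega⟩
    have hd' : (l : ℕ) = k + d := by omega
    rw [hd, hd', pow_add, pow_add] at h3
    push_cast at h3
    have h4 : (((g : (ZMod p)ˣ) : ZMod p) ^ (i : ℕ) - (g : ZMod p) ^ (k : ℕ)) *
        ((g : ZMod p) ^ d - 1) = 0 := by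
      linear_combination h3
    rcases mul_eq_zero.1 h4 with h5 | h5
    · have h6 : g ^ (i : ℕ) = g ^ (k : ℕ) := by
        apply Units.ext
        push_cast
        exact sub_eq_zero.1 h5
      have h7 := hpow i k h6
      refine ⟨h7, ?_⟩
      apply Fin.ext
      rw [hd, hd', h7]
    · exfalso
      have h6 : g ^ d = 1 := by
        apply Units.ext
        push_cast
        exact sub_eq_zero.1 h5
      have h7 := orderOf_dvd_of_pow_eq_one h6
      rw [hord] at h7
      have h8 : d < p - 1 := by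
        have := j.2
        omega
      have h9 : 0 < d := by omega
      exact absurd (Nat.le_of_dvd h9 h7) (by omega)
  unfold C
  rw [Nat.card_pos_iff]
  exact ⟨⟨⟨F, hF⟩⟩, inferInstance⟩

end Pool.MP_d821cf_co
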