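import Pool.Agent.Lib.MP_d821cf_co.Bound
import Pool.Agent.Lib.MP_d821cf_co.Welch

/-!
# Consequences of the upper bound
-/

set_option autoImplicit false

namespace Pool.MP_d821cf_co

open Finset Filter

theorem exists_K : ∃ K : ℝ, 17 ≤ K ∧ ∀ n : ℕ, (C n : ℝ) ≤ K ^ n := by
  obtain ⟨n1, h1⟩ := eventually_atTop.1 (C_le_pow (K := 17) (by norm_num))
  refine ⟨max 17 n1, le_max_left _ _, fun n => ?_⟩
  by_cases hn : n1 ≤ n
  · exact (h1 n hn).trans (pow_le_pow_left₀ (by norm_num) (le_max_left _ _) _)
  · have h2 : (C n : ℝ) ≤ (n : ℝ) ^ n := by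
      exact_mod_cast (C_le_N n).trans (N_triv n n)
    refine h2.trans (pow_le_pow_left₀ (Nat.cast_nonneg _) ?_ _)
    refine le_trans ?_ (le_max_right _ _)
    have : n ≤ n1 := by omega
    exact_mod_cast this

theorem factorial_ge (m : ℕ) : ((m : ℝ) / Real.exp 1) ^ m ≤ (m.factorial : ℝ) := by
  have h1 := Real.pow_div_factorial_le_exp (m : ℝ) (Nat.cast_nonneg _) m
  have h2 : (0 : ℝ) < m.factorial := by exact_mod_cast m.factorial_pos
  rw [div_le_iff₀ h2] at h1
  have h3 : Real.exp (m : ℝ) = Real.exp 1 ^ m := by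
    rw [← Real.exp_nat_mul, mul_one]
  rw [h3] at h1
  rw [div_pow, div_le_iff₀ (by positivity)]
  linarith

/-- The rate of decay of the proportion. -/
theorem r_le {K : ℝ} (hK : 16 * Real.exp 1 < K) : ∀ᶠ n : ℕ in atTop, r n ≤ (K / n) ^ n := by
  have he : 0 < Real.exp 1 := Real.exp_pos 1
  have h1 : 16 < K / Real.exp 1 := by
    rw [lt_div_iff₀ he]
    exact hK
  filter_upwards [C_le_pow h1, eventually_ge_atTop 1] with n hn hn1
  have hn0 : (0 : ℝ) < n := by
    have : 0 < n := by omega
    exact_mod_cast this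
  unfold r
  have h2 : (0 : ℝ) < n.factorial := by exact_mod_cast n.factorial_pos
  rw [div_le_iff₀ h2]
  refine hn.trans ?_
  have h3 : (0 : ℝ) < K := by
    have := mul_pos (show (0 : ℝ) < 16 by norm_num) he
    linarith
  calc (K / Real.exp 1) ^ n = (K / n) ^ n * ((n : ℝ) / Real.exp 1) ^ n := by
        rw [← mul_pow]
        congr 1
        field_simp
    _ ≤ (K / n) ^ n * n.factorial := mul_le_mul_of_nonneg_left (factorial_ge n) (by positivity)

/-- Long range monotonicity. -/
theorem long_range : ∃ c : ℝ, 0 < c ∧ ∀ n : ℕ, 2 ≤ n → 0 < C n → ∀ m : ℕ,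
    (n : ℝ) + c * n / Real.log n ≤ m → r m < r n := by
  obtain ⟨K, hK17, hK⟩ := exists_K
  have hK0 : 0 < K := by linarith
  refine ⟨6 * K ^ 3, by positivity, fun n hn hC m hm => ?_⟩
  have hn2 : (2 : ℝ) ≤ n := by exact_mod_cast hn
  have hn0 : (0 : ℝ) < n := by linarith
  have hlog : 0 < Real.log n := Real.log_pos (by linarith)
  have hlogK : 0 < Real.log K := Real.log_pos (by linarith)
  have hlogK' : Real.log K ≤ K := (Real.log_le_sub_one_of_pos hK0).trans (by linarith)
  have hmn : (n : ℝ) ≤ m := by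
    have : 0 ≤ 6 * K ^ 3 * n / Real.log n := by positivity
    linarith
  have hmn' : n ≤ m := by exact_mod_cast hmn
  have hfm : (0 : ℝ) < m.factorial := by exact_mod_cast m.factorial_pos
  have hfn : (0 : ℝ) < n.factorial := by exact_mod_cast n.factorial_pos
  have key : K ^ m * n.factorial < m.factorial := by
    by_cases hcase : K ^ 2 ≤ n
    · obtain ⟨t, rfl⟩ := Nat.exists_eq_add_of_le hmn'
      have h1 : ((n.factorial : ℝ)) * ((n : ℝ) + 1) ^ t ≤ ((n + t).factorial : ℝ) := by
        exact_mod_cast Nat.factorial_mul_pow_le_factorial (m := n) (n := t)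
      refine lt_of_lt_of_le ?_ h1
      rw [mul_comm]
      refine mul_lt_mul_of_pos_left ?_ hfn
      have ht : 6 * K ^ 3 * n / Real.log n ≤ (t : ℝ) := by
        push_cast at hm
        linarith
      have ht0 : (0 : ℝ) ≤ t := Nat.cast_nonneg _
      have h2 : 2 * Real.log K ≤ Real.log n := by
        have := Real.log_le_log (by positivity) hcase
        rw [Real.log_pow] at this
        exact_mod_cast this
      have h3 : Real.log n ≤ Real.log ((n : ℝ) + 1) := Real.log_le_log hn0 (by linarith)
      rw [← Real.log_lt_log_iff (by positivity) (by positivity), Real.log_pow, Real.log_pow]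
      push_cast
      have h4 : 6 * K ^ 3 * n ≤ t * Real.log n := by
        rwa [div_le_iff₀ hlog] at ht
      have h5 : (t : ℝ) * Real.log n ≤ t * Real.log ((n : ℝ) + 1) :=
        mul_le_mul_of_nonneg_left h3 ht0
      have h6 : (t : ℝ) * (2 * Real.log K) ≤ t * Real.log n :=
        mul_le_mul_of_nonneg_left h2 ht0
      have h7 : Real.log K < 3 * K ^ 3 := by
        have : K < 3 * K ^ 3 := by nlinarith [sq_nonneg K]
        linarith
      have h8 : (n : ℝ) * Real.log K < n * (3 * K ^ 3) := mul_lt_mul_of_pos_left h7 hn0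
      nlinarith
    · have hcase' : (n : ℝ) < K ^ 2 := not_le.1 hcase
      have h1 : Real.log n ≤ n := (Real.log_le_sub_one_of_pos hn0).trans (by linarith)
      have h2 : 6 * K ^ 3 ≤ m := by
        have h3 : 6 * K ^ 3 ≤ 6 * K ^ 3 * n / Real.log n := by
          rw [le_div_iff₀ hlog]
          exact mul_le_mul_of_nonneg_left h1 (by positivity)
        linarith
      have he : Real.exp 1 < 3 := by linarith [Real.exp_one_lt_d9]
      have he0 : 0 < Real.exp 1 := Real.exp_pos 1
      have h4 : 2 * K ^ 2 ≤ (m : ℝ) / Real.exp 1 / K := by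
        rw [le_div_iff₀ hK0, le_div_iff₀ he0]
        calc 2 * K ^ 2 * K * Real.exp 1 ≤ 2 * K ^ 2 * K * 3 :=
              mul_le_mul_of_nonneg_left he.le (by positivity)
          _ = 6 * K ^ 3 := by ring
          _ ≤ m := h2
      have h5 : (n.factorial : ℝ) ≤ (n : ℝ) ^ n := by exact_mod_cast Nat.factorial_le_pow n
      have h6 : (n : ℝ) ^ n < (2 * K ^ 2) ^ m := by
        calc (n : ℝ) ^ n < (2 * K ^ 2) ^ n := by
              refine pow_lt_pow_left₀ ?_ hn0.le (by omega)
              nlinarith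
          _ ≤ (2 * K ^ 2) ^ m := pow_le_pow_right₀ (by nlinarith) hmn'
      calc K ^ m * n.factorial < K ^ m * (2 * K ^ 2) ^ m :=
            mul_lt_mul_of_pos_left (lt_of_le_of_lt h5 h6) (by positivity)
        _ ≤ K ^ m * ((m : ℝ) / Real.exp 1 / K) ^ m :=
            mul_le_mul_of_nonneg_left (pow_le_pow_left₀ (by positivity) h4 _) (by positivity)
        _ = ((m : ℝ) / Real.exp 1) ^ m := by
            rw [← mul_pow]
            congr 1
            field_simp
        _ ≤ m.factorial := factorial_ge m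
  unfold r
  rw [div_lt_div_iff₀ hfm hfn]
  have h1 : (1 : ℝ) ≤ C n := by exact_mod_cast hC
  calc (C m : ℝ) * n.factorial ≤ K ^ m * n.factorial :=
        mul_le_mul_of_nonneg_right (hK m) hfn.le
    _ < m.factorial := key
    _ ≤ C n * m.factorial := by nlinarith

/-- The inequality of the question holds in every interval `[N, N + c N / log N]`. -/
theorem gaps : ∃ c : ℝ, 0 < c ∧ ∀ N : ℕ, 2 ≤ N → ∃ n : ℕ, N ≤ n ∧
    (n : ℝ) ≤ N + c * N / Real.log N ∧ C (n + 1) ≤ (n + 1) * C n := by
  obtain ⟨c, hc, h⟩ := long_range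
  refine ⟨2 * c + 1, by positivity, fun N hN => ?_⟩
  by_contra hcon
  push Not at hcon
  have hN2 : (2 : ℝ) ≤ N := by exact_mod_cast hN
  have hN0 : (0 : ℝ) < N := by linarith
  have hlog : 0 < Real.log N := Real.log_pos (by linarith)
  have hlogN : Real.log N ≤ N := (Real.log_le_sub_one_of_pos hN0).trans (by linarith)
  set X : ℝ := N + (2 * c + 1) * N / Real.log N with hX
  have hX0 : (N : ℝ) ≤ X := by
    have : 0 ≤ (2 * c + 1) * N / Real.log N := by positivity
    linarith
  -- r increases
  have hstep : ∀ n : ℕ, N ≤ n → (n : ℝ) ≤ X → r n < r (n + 1) := by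
    intro n hn hnX
    have h1 := hcon n hn hnX
    unfold r
    have h2 : (0 : ℝ) < n.factorial := by exact_mod_cast n.factorial_pos
    have h3 : (0 : ℝ) < (n + 1).factorial := by exact_mod_cast (n + 1).factorial_pos
    rw [div_lt_div_iff₀ h2 h3, Nat.factorial_succ]
    push_cast
    have h4 : (((n : ℝ) + 1) * C n) < C (n + 1) := by exact_mod_cast h1
    nlinarith
  have hmono : ∀ t : ℕ, ((N + t : ℕ) : ℝ) ≤ X → r (N + 1) ≤ r (N + 1 + t) := by
    intro t
    induction t with
    | zero => intro _; exact le_rfl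
    | succ t ih =>
      intro ht
      have h1 : ((N + t : ℕ) : ℝ) ≤ X := by
        push_cast at ht ⊢
        linarith
      refine (ih h1).trans ?_
      have h2 := hstep (N + 1 + t) (by omega) (by
        push_cast at ht ⊢
        linarith)
      exact h2.le
  have hC1 : 0 < C (N + 1) := by
    have := hcon N le_rfl hX0
    omega
  set t : ℕ := ⌊X⌋₊ - N with ht
  have hfl : N ≤ ⌊X⌋₊ := Nat.le_floor hX0
  have hNt : N + t = ⌊X⌋₊ := by omega
  have h1 := hmono t (by
    rw [hNt]
    exact Nat.floor_le (hN0.le.trans hX0))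
  have h2 := h (N + 1) (by omega) hC1 (N + 1 + t) (by
    have h3 : X < ((N + 1 + t : ℕ) : ℝ) := by
      have h4 : N + 1 + t = ⌊X⌋₊ + 1 := by omega
      rw [h4]
      push_cast
      exact Nat.lt_floor_add_one X
    refine le_trans ?_ h3.le
    rw [hX]
    push_cast
    have h5 : Real.log N ≤ Real.log ((N : ℝ) + 1) := Real.log_le_log hN0 (by linarith)
    have h6 : c * ((N : ℝ) + 1) / Real.log ((N : ℝ) + 1) ≤ 2 * c * N / Real.log N := by
      calc c * ((N : ℝ) + 1) / Real.log ((N : ℝ) + 1) ≤ c * ((N : ℝ) + 1) / Real.log N :=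
            div_le_div_of_nonneg_left (by positivity) hlog h5
        _ ≤ 2 * c * N / Real.log N := by
            refine div_le_div_of_nonneg_right ?_ hlog.le
            nlinarith
    have h7 : (1 : ℝ) ≤ N / Real.log N := by
      rw [le_div_iff₀ hlog]
      linarith
    have h8 : (2 * c + 1) * N / Real.log N = 2 * c * N / Real.log N + N / Real.log N := by
      ring
    rw [h8]
    linarith)
  exact absurd h2 (not_lt.2 h1)

end Pool.MP_d821cf_co
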